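import Mathlib

set_option autoImplicit false

open MeasureTheory Set Metric

namespace Pool.Agent.Helper16TC

/-- the Euclidean plane -/
abbrev E2 : Type := EuclideanSpace ℝ (Fin 2)

/-- rigid coordinates -/
noncomputable def Psi (Q : E2) (a b : ℝ) (p : ℝ × ℝ) : E2 :=
  Q + (p.1 • !₂[a, b] + p.2 • !₂[-b, a])

/-- inverse of `Psi` -/
noncomputable def Phi (Q : E2) (a b : ℝ) (X : E2) : ℝ × ℝ :=
  (a * (X 0 - Q 0) + b * (X 1 - Q 1), -b * (X 0 - Q 0) + a * (X 1 - Q 1))

theorem Psi_zero (Q : E2) (a b : ℝ) (p : ℝ × ℝ) :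
    Psi Q a b p 0 = Q 0 + (p.1 * a - p.2 * b) := by
  simp [Psi]; ring

theorem Psi_one (Q : E2) (a b : ℝ) (p : ℝ × ℝ) :
    Psi Q a b p 1 = Q 1 + (p.1 * b + p.2 * a) := by
  simp [Psi]

theorem ext2 {x y : E2} (h0 : x 0 = y 0) (h1 : x 1 = y 1) : x = y := by
  ext i
  fin_cases i
  · exact h0
  · exact h1

theorem Psi_Phi {a b : ℝ} (h : a ^ 2 + b ^ 2 = 1) (Q X : E2) : Psi Q a b (Phi Q a b X) = X := by
  apply ext2
  · rw [Psi_zero]
    simp only [Phi]
    linear_combination (X 0 - Q 0) * h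
  · rw [Psi_one]
    simp only [Phi]
    linear_combination (X 1 - Q 1) * h

theorem Phi_Psi {a b : ℝ} (h : a ^ 2 + b ^ 2 = 1) (Q : E2) (p : ℝ × ℝ) :
    Phi Q a b (Psi Q a b p) = p := by
  ext
  · simp only [Phi, Psi_zero, Psi_one]
    linear_combination p.1 * h
  · simp only [Phi, Psi_zero, Psi_one]
    linear_combination p.2 * h

theorem continuous_Phi (Q : E2) (a b : ℝ) : Continuous (Phi Q a b) := by
  unfold Phi
  fun_prop

theorem preimage_eq_image {a b : ℝ} (h : a ^ 2 + b ^ 2 = 1) (Q : E2) (K : Set E2) :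
    Psi Q a b ⁻¹' K = Phi Q a b '' K := by
  ext p
  constructor
  · intro hp
    exact ⟨_, hp, Phi_Psi h Q p⟩
  · rintro ⟨X, hX, rfl⟩
    simpa [Psi_Phi h] using hX

theorem orthonormal_pair {a b : ℝ} (h : a ^ 2 + b ^ 2 = 1) :
    Orthonormal ℝ (![!₂[a, b], !₂[-b, a]] : Fin 2 → E2) := by
  rw [orthonormal_iff_ite]
  intro i j
  fin_cases i <;> fin_cases j <;> simp [inner, Fin.sum_univ_two] <;> nlinarith

theorem measurePreserving_Psi {a b : ℝ} (h : a ^ 2 + b ^ 2 = 1) (Q : E2) :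
    MeasurePreserving (Psi Q a b) volume volume := by
  have hcard : Fintype.card (Fin 2) = Module.finrank ℝ E2 := by simp
  let B : OrthonormalBasis (Fin 2) ℝ E2 :=
    (basisOfOrthonormalOfCardEqFinrank (orthonormal_pair h) hcard).toOrthonormalBasis (by
      rw [coe_basisOfOrthonormalOfCardEqFinrank]
      exact orthonormal_pair h)
  have h1 := (volume_preserving_finTwoArrow ℝ).symm
  have h2 := PiLp.volume_preserving_toLp (Fin 2)
  have h3 := B.measurePreserving_repr_symm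
  have h4 := measurePreserving_add_left (volume : Measure E2) Q
  have h5 := h4.comp (h3.comp (h2.comp h1))
  have he : (Psi Q a b) = ((fun x => Q + x) ∘ (B.repr.symm ∘ ((WithLp.toLp 2) ∘
      (MeasurableEquiv.finTwoArrow (α := ℝ)).symm))) := by
    funext p
    simp only [Function.comp_apply, Psi]
    congr 1
    rw [← OrthonormalBasis.sum_repr_symm]
    rw [Fin.sum_univ_two]
    simp [B, MeasurableEquiv.finTwoArrow]
  rw [he]
  exact h5

theorem dist_sq (x y : E2) : dist x y ^ 2 = (x 0 - y 0) ^ 2 + (x 1 - y 1) ^ 2 := by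
  rw [EuclideanSpace.dist_eq, Real.sq_sqrt (by positivity), Fin.sum_univ_two]
  simp [Real.dist_eq, sq_abs]

theorem dist_Psi_sq {a b : ℝ} (h : a ^ 2 + b ^ 2 = 1) (Q : E2) (p q : ℝ × ℝ) :
    dist (Psi Q a b p) (Psi Q a b q) ^ 2 = (p.1 - q.1) ^ 2 + (p.2 - q.2) ^ 2 := by
  rw [dist_sq, Psi_zero, Psi_zero, Psi_one, Psi_one]
  linear_combination ((p.1 - q.1) ^ 2 + (p.2 - q.2) ^ 2) * h

theorem convex_preimage (Q : E2) (a b : ℝ) {K : Set E2} (hK : Convex ℝ K) :
    Convex ℝ (Psi Q a b ⁻¹' K) := by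
  intro p hp q hq s t hs ht hst
  have := hK hp hq hs ht hst
  simp only [mem_preimage] at *
  convert this using 1
  apply ext2
  · simp only [Psi_zero, PiLp.add_apply, PiLp.smul_apply, smul_eq_mul, Prod.fst_add,
      Prod.snd_add, Prod.smul_fst, Prod.smul_snd]
    linear_combination -(Q 0) * hst
  · simp only [Psi_one, PiLp.add_apply, PiLp.smul_apply, smul_eq_mul, Prod.fst_add,
      Prod.snd_add, Prod.smul_fst, Prod.smul_snd]
    linear_combination -(Q 1) * hst

end Pool.Agent.Helper16TC
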