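import Mathlib
import Pool.Agent.Helper16_TC.Coord

set_option autoImplicit false

open MeasureTheory Set Metric
open scoped RealInnerProductSpace Pointwise

namespace Pool.Agent.Helper16TC

/-- a compact convex body containing the unit ball touches the sphere of its inner radius -/
theorem exists_touch {D : Set E2} (hD : IsCompact D) (hc : Convex ℝ D)
    (hb : closedBall (0 : E2) 1 ⊆ D) :
    ∃ z ∈ D, 1 ≤ ‖z‖ ∧ closedBall (0 : E2) ‖z‖ ⊆ D ∧ ∀ x ∈ D, ⟪x, z⟫ ≤ ‖z‖ ^ 2 := by
  have hne : (Dᶜ).Nonempty := by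
    by_contra hcon
    rw [not_nonempty_iff_eq_empty, compl_empty_iff] at hcon
    have := hD.isBounded
    rw [hcon] at this
    exact NormedSpace.unbounded_univ ℝ E2 this
  have hcl : (closure Dᶜ).Nonempty := hne.closure
  obtain ⟨z, hz1, hz2⟩ := isClosed_closure.exists_infDist_eq_dist hcl (0 : E2)
  rw [infDist_closure, dist_zero_left] at hz2
  have hball : ball (0 : E2) ‖z‖ ⊆ D := by
    intro x hx
    by_contra hxD
    have h1 := infDist_le_dist_of_mem (x := (0 : E2)) (show x ∈ Dᶜ from hxD)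
    rw [hz2, dist_zero_left] at h1
    rw [mem_ball_zero_iff] at hx
    linarith
  have hw1 : 1 ≤ ‖z‖ := by
    rw [← hz2]
    rw [le_infDist hne]
    intro y hy
    by_contra hlt
    push Not at hlt
    apply hy
    apply hb
    rw [mem_closedBall, dist_comm]
    exact hlt.le
  have hcb : closedBall (0 : E2) ‖z‖ ⊆ D := by
    have hzne : ‖z‖ ≠ 0 := by
      intro h
      rw [h] at hw1
      norm_num at hw1
    rw [← closure_ball (0 : E2) hzne]
    exact closure_minimal hball hD.isClosed
  have hzD : z ∈ D := hcb (by simp)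
  refine ⟨z, hzD, hw1, hcb, ?_⟩
  intro x hx
  by_contra hlt
  push Not at hlt
  have hzint : z ∉ interior D := by
    rw [closure_compl] at hz1
    exact hz1
  apply hzint
  set s := ⟪x, z⟫ - ‖z‖ ^ 2 with hs
  have hs0 : 0 < s := by rw [hs]; linarith
  set t := min (1 / 2 : ℝ) (s / (‖x‖ ^ 2 + 1)) with ht
  have hpos : 0 < ‖x‖ ^ 2 + 1 := by positivity
  have ht0 : 0 < t := lt_min (by norm_num) (div_pos hs0 hpos)
  have ht1 : t ≤ 1 / 2 := min_le_left _ _
  have ht2 : t * (‖x‖ ^ 2 + 1) ≤ s := by
    have : t ≤ s / (‖x‖ ^ 2 + 1) := min_le_right _ _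
    rwa [le_div_iff₀ hpos] at this
  have h1t : 0 < 1 - t := by linarith
  set y := (1 - t)⁻¹ • (z - t • x) with hy
  have hyball : y ∈ ball (0 : E2) ‖z‖ := by
    rw [mem_ball_zero_iff, hy, norm_smul, Real.norm_eq_abs, abs_of_pos (inv_pos.2 h1t),
      inv_mul_lt_iff₀ h1t]
    apply lt_of_pow_lt_pow_left₀ 2 (by positivity)
    have e1 : ‖z - t • x‖ ^ 2 = ‖z‖ ^ 2 - 2 * t * ⟪x, z⟫ + t ^ 2 * ‖x‖ ^ 2 := by
      rw [@norm_sub_sq_real, norm_smul, inner_smul_right, real_inner_comm]
      rw [Real.norm_eq_abs, mul_pow, sq_abs]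
      ring
    rw [e1]
    have e2 : ⟪x, z⟫ = s + ‖z‖ ^ 2 := by rw [hs]; ring
    rw [e2]
    nlinarith [sq_nonneg ‖x‖, mul_pos ht0 hs0, sq_nonneg ‖z‖, mul_le_mul_of_nonneg_left ht2 ht0.le]
  have hyint : y ∈ interior D := interior_maximal hball isOpen_ball hyball
  have hcombo : z = t • x + (1 - t) • y := by
    rw [hy, smul_smul, mul_inv_cancel₀ h1t.ne', one_smul]
    abel
  rw [hcombo]
  exact hc.combo_self_interior_mem_interior hx hyint ht0.le h1t (by ring)

/-- a convex set of finite area which contains a ball is bounded -/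
theorem bounded_of_finite {K : Set E2} (hK : Convex ℝ K) (hv : volume K ≠ ⊤) {v : E2}
    (hb : closedBall v (1 / 2) ⊆ K) : Bornology.IsBounded K := by
  by_contra hnb
  apply hv
  have hunb : ∀ R : ℝ, ∃ p ∈ K, R < ‖p - v‖ := by
    intro R
    by_contra hcon
    push Not at hcon
    apply hnb
    apply (isBounded_closedBall (x := v) (r := R)).subset
    intro p hp
    rw [mem_closedBall, dist_eq_norm]
    exact hcon p hp
  apply ENNReal.eq_top_of_forall_nnreal_le
  intro r
  have hcpos : 0 < volume (ball (0 : E2) (1 / 4)) := measure_ball_pos _ _ (by norm_num)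
  set c := volume (ball (0 : E2) (1 / 4)) with hc
  -- choose N with r ≤ N * c
  obtain ⟨N, hN⟩ : ∃ N : ℕ, (r : ENNReal) ≤ N * c := by
    have hcne : c ≠ 0 := hcpos.ne'
    have hctop : c ≠ ⊤ := (measure_ball_lt_top).ne
    obtain ⟨N, hN⟩ := ENNReal.exists_nat_mul_gt hcne (ENNReal.coe_ne_top (r := r))
    exact ⟨N, hN.le⟩
  obtain ⟨p, hpK, hp⟩ := hunb N
  rcases Nat.eq_zero_or_pos N with hN0 | hN0
  · subst hN0
    simp only [Nat.cast_zero, zero_mul] at hN
    exact hN.trans bot_le
  have hNpos : (0 : ℝ) < N := by exact_mod_cast hN0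
  set d := p - v with hd
  set τ : ℕ → ℝ := fun i => (i : ℝ) / (2 * N) with hτ
  have hτ0 : ∀ i, 0 ≤ τ i := fun i => by simp only [hτ]; positivity
  have hτ1 : ∀ i ∈ Finset.range N, τ i ≤ 1 / 2 := by
    intro i hi
    rw [Finset.mem_range] at hi
    simp only [hτ]
    rw [div_le_div_iff₀ (by positivity) (by norm_num)]
    have : (i : ℝ) ≤ N := by exact_mod_cast hi.le
    linarith
  have hsub : ∀ i ∈ Finset.range N, ball (v + τ i • d) (1 / 4) ⊆ K := by
    intro i hi x hx
    have h1 := hτ1 i hi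
    have h0 := hτ0 i
    have h1t : 0 < 1 - τ i := by linarith
    rw [mem_ball, dist_eq_norm] at hx
    set y := x - (v + τ i • d) with hy
    have hm : v + (1 - τ i)⁻¹ • y ∈ K := by
      apply hb
      rw [mem_closedBall, dist_eq_norm, add_sub_cancel_left, norm_smul, Real.norm_eq_abs,
        abs_of_pos (inv_pos.2 h1t), inv_mul_le_iff₀ h1t]
      linarith
    have := hK hm hpK h1t.le h0 (by ring)
    convert this using 1
    rw [smul_add, smul_smul, mul_inv_cancel₀ h1t.ne', one_smul, hy, hd]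
    module
  have hdisj : Pairwise (Function.onFun Disjoint (fun i : ℕ => ball (v + τ i • d) (1 / 4))) := by
    intro i j hij
    apply ball_disjoint_ball
    rw [dist_eq_norm]
    have : v + τ i • d - (v + τ j • d) = (τ i - τ j) • d := by module
    rw [this, norm_smul, Real.norm_eq_abs]
    have hij' : (1 : ℝ) ≤ |(i : ℝ) - j| := by
      have : (1 : ℤ) ≤ |(i : ℤ) - j| := by
        apply Int.one_le_abs
        intro h
        apply hij
        omega
      exact_mod_cast this
    have h2 : |τ i - τ j| = |(i : ℝ) - j| / (2 * N) := by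
      simp only [hτ]
      rw [← sub_div, abs_div, abs_of_pos (by positivity : (0:ℝ) < 2 * N)]
    rw [h2]
    have h3 : (1 : ℝ) / (2 * N) ≤ |(i : ℝ) - j| / (2 * N) := by
      apply div_le_div_of_nonneg_right hij' (by positivity)
    calc (1 / 4 + 1 / 4 : ℝ) = 1 / (2 * N) * N := by field_simp; norm_num
      _ ≤ |(i : ℝ) - j| / (2 * N) * ‖d‖ := by
        apply mul_le_mul h3 hp.le hNpos.le (by positivity)
  calc (r : ENNReal) ≤ N * c := hN
    _ = ∑ i ∈ Finset.range N, volume (ball (v + τ i • d) (1 / 4)) := by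
        rw [Finset.sum_congr rfl (fun i _ => Measure.addHaar_ball_center volume (v + τ i • d) (1/4))]
        simp [hc]
    _ = volume (⋃ i ∈ Finset.range N, ball (v + τ i • d) (1 / 4)) := by
        rw [measure_biUnion_finset]
        · intro i _ j _ hij
          exact hdisj hij
        · intro i _
          exact measurableSet_ball
    _ ≤ volume K := measure_mono (by
        intro x hx
        simp only [mem_iUnion] at hx
        obtain ⟨i, hi, hx⟩ := hx
        exact hsub i hi hx)

end Pool.Agent.Helper16TC
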