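import Mathlib

set_option autoImplicit false

open MeasureTheory Set

namespace Pool.Agent.Helper16TC

/-- upper boundary function of a plane set in coordinates -/
noncomputable def top (C : Set (ℝ × ℝ)) (x : ℝ) : ℝ := sSup {y | (x, y) ∈ C}

/-- reflection in the horizontal axis -/
def refl (C : Set (ℝ × ℝ)) : Set (ℝ × ℝ) := {p | (p.1, -p.2) ∈ C}

theorem slice_compact {C : Set (ℝ × ℝ)} (hC : IsCompact C) (x : ℝ) :
    IsCompact {y | (x, y) ∈ C} := by
  have h : {y | (x, y) ∈ C} = Prod.snd '' (C ∩ {p | p.1 = x}) := by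
    ext y
    constructor
    · intro hy
      exact ⟨(x, y), ⟨hy, rfl⟩, rfl⟩
    · rintro ⟨⟨a, b⟩, ⟨h1, h2⟩, h3⟩
      simp only [mem_setOf_eq] at h2 h3
      subst h2
      subst h3
      exact h1
  rw [h]
  apply IsCompact.image _ continuous_snd
  apply hC.inter_right
  exact isClosed_eq continuous_fst continuous_const

theorem top_mem {C : Set (ℝ × ℝ)} (hC : IsCompact C) {x y : ℝ} (h : (x, y) ∈ C) :
    (x, top C x) ∈ C := (slice_compact hC x).sSup_mem ⟨y, h⟩

theorem le_top {C : Set (ℝ × ℝ)} (hC : IsCompact C) {x y : ℝ} (h : (x, y) ∈ C) :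
    y ≤ top C x := le_csSup (slice_compact hC x).bddAbove h

theorem refl_compact {C : Set (ℝ × ℝ)} (hC : IsCompact C) : IsCompact (refl C) := by
  have h : refl C = (fun p : ℝ × ℝ => (p.1, -p.2)) '' C := by
    ext p
    constructor
    · intro hp
      exact ⟨(p.1, -p.2), hp, by simp⟩
    · rintro ⟨q, hq, rfl⟩
      simpa [refl] using hq
  rw [h]
  exact hC.image (by fun_prop)

theorem refl_convex {C : Set (ℝ × ℝ)} (hC : Convex ℝ C) : Convex ℝ (refl C) := by
  intro p hp q hq a b ha hb hab
  have := hC hp hq ha hb hab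
  simp only [refl, mem_setOf_eq] at *
  convert this using 1
  ext <;> simp
  ring

theorem concave_top {C : Set (ℝ × ℝ)} (hC : IsCompact C) (hc : Convex ℝ C) {w : ℝ}
    (hne : ∀ x ∈ Icc 0 w, ∃ y, (x, y) ∈ C) : ConcaveOn ℝ (Icc 0 w) (top C) := by
  refine ⟨convex_Icc 0 w, ?_⟩
  intro x hx y hy a b ha hb hab
  obtain ⟨y1, h1⟩ := hne x hx
  obtain ⟨y2, h2⟩ := hne y hy
  have m1 := top_mem hC h1
  have m2 := top_mem hC h2
  have m := hc m1 m2 ha hb hab
  have : (a • (x, top C x) + b • (y, top C y) : ℝ × ℝ) =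
      (a • x + b • y, a • top C x + b • top C y) := by ext <;> simp
  rw [this] at m
  exact le_top hC m

theorem intervalIntegrable_of_concave {f : ℝ → ℝ} {w B : ℝ} (hw : 0 ≤ w)
    (hf : ConcaveOn ℝ (Icc 0 w) f) (h0 : ∀ x ∈ Icc 0 w, |f x| ≤ B) :
    IntervalIntegrable f volume 0 w := by
  rw [intervalIntegrable_iff_integrableOn_Ioo_of_le hw]
  have hc : ContinuousOn f (Ioo 0 w) := by
    have := hf.continuousOn_interior
    rwa [interior_Icc] at this
  refine ⟨hc.aestronglyMeasurable measurableSet_Ioo, ?_⟩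
  apply MeasureTheory.HasFiniteIntegral.of_bounded (C := B)
  rw [ae_restrict_iff' measurableSet_Ioo]
  refine Filter.Eventually.of_forall ?_
  intro x hx
  rw [Real.norm_eq_abs]
  exact h0 x (Ioo_subset_Icc_self hx)

theorem top_intervalIntegrable {C : Set (ℝ × ℝ)} (hC : IsCompact C) (hc : Convex ℝ C) {w : ℝ}
    (hw : 0 ≤ w) (hne : ∀ x ∈ Icc 0 w, ∃ y, (x, y) ∈ C) :
    IntervalIntegrable (top C) volume 0 w := by
  obtain ⟨B, hB⟩ := hC.isBounded.exists_norm_le
  apply intervalIntegrable_of_concave (B := B) hw (concave_top hC hc hne)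
  intro x hx
  obtain ⟨y, hy⟩ := hne x hx
  have h1 := hB _ (top_mem hC hy)
  have h2 : ‖(x, top C x).2‖ ≤ ‖(x, top C x)‖ := norm_snd_le _
  rw [Real.norm_eq_abs] at h2
  exact h2.trans h1

/-- the area of `C` is at least the integral of its vertical chords -/
theorem integral_le_volume {C : Set (ℝ × ℝ)} (hC : IsCompact C) (hc : Convex ℝ C) {w : ℝ}
    (hw : 0 ≤ w) (hne : ∀ x ∈ Icc 0 w, ∃ y, (x, y) ∈ C) :
    ENNReal.ofReal (∫ x in (0:ℝ)..w, (top C x + top (refl C) x)) ≤ volume C := by
  have hne' : ∀ x ∈ Icc 0 w, ∃ y, (x, y) ∈ refl C := by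
    intro x hx
    obtain ⟨y, hy⟩ := hne x hx
    exact ⟨-y, by simpa [refl] using hy⟩
  have i1 := top_intervalIntegrable hC hc hw hne
  have i2 := top_intervalIntegrable (refl_compact hC) (refl_convex hc) hw hne'
  have hle : ∀ x ∈ Ioc 0 w, -(top (refl C) x) ≤ top C x := by
    intro x hx
    obtain ⟨y, hy⟩ := hne x (Ioc_subset_Icc_self hx)
    have h1 := le_top hC hy
    have h2 : -y ≤ top (refl C) x := le_top (refl_compact hC) (by simpa [refl] using hy)
    linarith
  have i1' : IntegrableOn (top C) (Ioc 0 w) volume :=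
    (intervalIntegrable_iff_integrableOn_Ioc_of_le hw).1 i1
  have i2' : IntegrableOn (fun x => -(top (refl C) x)) (Ioc 0 w) volume :=
    ((intervalIntegrable_iff_integrableOn_Ioc_of_le hw).1 i2).neg
  have key := volume_regionBetween_eq_integral i2' i1' measurableSet_Ioc hle
  have hsub : regionBetween (fun x => -(top (refl C) x)) (top C) (Ioc 0 w) ⊆ C := by
    rintro ⟨x, y⟩ ⟨hx, hy1, hy2⟩
    simp only at hx hy1 hy2
    obtain ⟨z, hz⟩ := hne x (Ioc_subset_Icc_self hx)
    have m1 := top_mem hC hz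
    have m2 : (x, -(top (refl C) x)) ∈ C := by
      have := top_mem (refl_compact hC) (x := x) (y := -z) (by simpa [refl] using hz)
      simpa [refl] using this
    have hseg := hc.segment_subset m2 m1
    apply hseg
    rw [segment_eq_image]
    have hd : 0 < top C x + top (refl C) x := by linarith
    refine ⟨(y + top (refl C) x) / (top C x + top (refl C) x), ⟨?_, ?_⟩, ?_⟩
    · apply div_nonneg <;> linarith
    · rw [div_le_one hd]; linarith
    · ext
      · simp; ring
      · simp; field_simp; ring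
  calc ENNReal.ofReal (∫ x in (0:ℝ)..w, (top C x + top (refl C) x))
      = ENNReal.ofReal (∫ y in Ioc 0 w, (top C - fun x => -(top (refl C) x)) y) := by
        rw [intervalIntegral.integral_of_le hw]
        congr 1
        apply setIntegral_congr_fun measurableSet_Ioc
        intro x _
        simp
    _ = (volume.prod volume) (regionBetween (fun x => -(top (refl C) x)) (top C) (Ioc 0 w)) :=
        key.symm
    _ ≤ volume C := by
        rw [Measure.volume_eq_prod]
        exact measure_mono hsub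

end Pool.Agent.Helper16TC
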