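import Mathlib
import Pool.Agent.Helper22_TC.Defs
import Pool.Agent.Helper16_TC.Slice
import Pool.Agent.Helper16_TC.Coord
import Pool.Agent.Helper16_TC.Body

set_option autoImplicit false
set_option linter.deprecated false

open MeasureTheory Set Metric
open scoped RealInnerProductSpace Pointwise

namespace Pool.Agent.Helper16TC

open Pool.Agent.Helper22TC

theorem diam_eq_one {S : Set E2} (h : ∀ x ∈ S, ∀ y ∈ S, dist x y ≤ 1) {x y : E2} (hx : x ∈ S)
    (hy : y ∈ S) (hxy : dist x y = 1) : EMetric.diam S = 1 := by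
  show Metric.ediam S = 1
  apply le_antisymm
  · apply Metric.ediam_le
    intro a ha b hb
    rw [edist_dist]
    rw [← ENNReal.ofReal_one]
    exact ENNReal.ofReal_le_ofReal (h a ha b hb)
  · have := Metric.edist_le_ediam_of_mem hx hy
    rwa [edist_dist, hxy, ENNReal.ofReal_one] at this

/-- a cover contains a disk of radius `1/2` -/
theorem contains_ball {K : Set E2}
    (hc : ∀ S : Set E2, EMetric.diam S = 1 → ∃ v, (fun x => x + v) '' S ⊆ K) :
    ∃ v : E2, closedBall v (1 / 2) ⊆ K := by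
  have hd : EMetric.diam (closedBall (0 : E2) (1 / 2)) = 1 := by
    have h1 : ‖(!₂[(1 / 2 : ℝ), 0] : E2)‖ = 1 / 2 := by
      rw [EuclideanSpace.norm_eq]
      simp [Fin.sum_univ_two]
    apply diam_eq_one (x := !₂[(1 / 2 : ℝ), 0]) (y := -!₂[(1 / 2 : ℝ), 0])
    · intro x hx y hy
      have := dist_triangle_right x y 0
      rw [mem_closedBall] at hx hy
      linarith
    · rw [mem_closedBall, dist_zero_right, h1]
    · rw [mem_closedBall, dist_zero_right, norm_neg, h1]
    · rw [dist_eq_norm, sub_neg_eq_add, ← two_smul ℝ, norm_smul, h1]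
      norm_num
  obtain ⟨v, hv⟩ := hc _ hd
  refine ⟨v, ?_⟩
  intro x hx
  apply hv
  refine ⟨x - v, ?_, by simp⟩
  rw [mem_closedBall, dist_zero_right]
  rwa [mem_closedBall, dist_eq_norm] at hx

theorem volume_closure_of_convex {K : Set E2} (hK : Convex ℝ K) :
    volume (closure K) ≤ volume K := by
  calc volume (closure K) ≤ volume (K ∪ frontier K) :=
        measure_mono (closure_eq_self_union_frontier K).le
    _ ≤ volume K + volume (frontier K) := measure_union_le _ _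
    _ = volume K := by rw [hK.addHaar_frontier volume, add_zero]

/-- four point test sets of diameter one, in coordinates -/
theorem test_set {K1 : Set E2} {a b : ℝ} (hab : a ^ 2 + b ^ 2 = 1) (Q : E2)
    (hc : ∀ S : Set E2, EMetric.diam S = 1 → ∃ v, (fun x => x + v) '' S ⊆ K1)
    (P : Set (ℝ × ℝ)) (hP : ∀ p ∈ P, ∀ q ∈ P, (p.1 - q.1) ^ 2 + (p.2 - q.2) ^ 2 ≤ 1)
    {p q : ℝ × ℝ} (hp : p ∈ P) (hq : q ∈ P) (hpq : (p.1 - q.1) ^ 2 + (p.2 - q.2) ^ 2 = 1) :
    ∃ t : ℝ × ℝ, ∀ r ∈ P, r + t ∈ Psi Q a b ⁻¹' K1 := by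
  have hd : EMetric.diam (Psi 0 a b '' P) = 1 := by
    apply diam_eq_one (x := Psi 0 a b p) (y := Psi 0 a b q)
    · rintro _ ⟨x, hx, rfl⟩ _ ⟨y, hy, rfl⟩
      have h1 := dist_Psi_sq hab 0 x y
      have h2 := hP x hx y hy
      rw [← h1] at h2
      have h3 : (0 : ℝ) ≤ dist (Psi 0 a b x) (Psi 0 a b y) := dist_nonneg
      nlinarith
    · exact ⟨p, hp, rfl⟩
    · exact ⟨q, hq, rfl⟩
    · have h1 := dist_Psi_sq hab 0 p q
      rw [hpq] at h1
      have h3 : (0 : ℝ) ≤ dist (Psi 0 a b p) (Psi 0 a b q) := dist_nonneg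
      nlinarith
  obtain ⟨v, hv⟩ := hc _ hd
  refine ⟨Phi Q a b v, ?_⟩
  intro r hr
  have h1 : Psi 0 a b r + v ∈ K1 := hv ⟨Psi 0 a b r, ⟨r, hr, rfl⟩, rfl⟩
  rw [mem_preimage]
  convert h1 using 1
  have h2 := Psi_Phi hab Q v
  conv_rhs => rw [← h2]
  apply ext2
  · simp only [PiLp.add_apply, Psi_zero, Prod.fst_add, Prod.snd_add, PiLp.zero_apply]
    ring
  · simp only [PiLp.add_apply, Psi_one, Prod.fst_add, Prod.snd_add, PiLp.zero_apply]
    ring

/-- chords of `C` realising every small vector -/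
theorem chord_exists {K1 : Set E2} {a b w : ℝ} (hab : a ^ 2 + b ^ 2 = 1) (Q : E2)
    (hw : 0 ≤ w) (hball : closedBall (0 : E2) w ⊆ K1 - K1) {c d : ℝ} (hcd : c ^ 2 + d ^ 2 ≤ w ^ 2) :
    ∃ p ∈ Psi Q a b ⁻¹' K1, ∃ q ∈ Psi Q a b ⁻¹' K1, p.1 - q.1 = c ∧ p.2 - q.2 = d := by
  have hmem : Psi 0 a b (c, d) ∈ closedBall (0 : E2) w := by
    rw [mem_closedBall]
    have h1 := dist_Psi_sq hab 0 (c, d) (0, 0)
    have h2 : Psi 0 a b (0, 0) = 0 := by
      apply ext2
      · rw [Psi_zero]; simp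
      · rw [Psi_one]; simp
    rw [h2] at h1
    simp only [sub_zero] at h1
    have h3 : (0 : ℝ) ≤ dist (Psi 0 a b (c, d)) 0 := dist_nonneg
    nlinarith
  obtain ⟨X, hX, Y, hY, hXY⟩ := hball hmem
  refine ⟨Phi Q a b X, ?_, Phi Q a b Y, ?_, ?_, ?_⟩
  · rw [mem_preimage, Psi_Phi hab]; exact hX
  · rw [mem_preimage, Psi_Phi hab]; exact hY
  · have e0 : X 0 - Y 0 = c * a - d * b := by
      have := congrArg (fun v : E2 => v 0) hXY
      simpa [Psi_zero] using this
    have e1 : X 1 - Y 1 = c * b + d * a := by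
      have := congrArg (fun v : E2 => v 1) hXY
      simpa [Psi_one] using this
    simp only [Phi]
    linear_combination a * e0 + b * e1 + c * hab
  · have e0 : X 0 - Y 0 = c * a - d * b := by
      have := congrArg (fun v : E2 => v 0) hXY
      simpa [Psi_zero] using this
    have e1 : X 1 - Y 1 = c * b + d * a := by
      have := congrArg (fun v : E2 => v 1) hXY
      simpa [Psi_one] using this
    simp only [Phi]
    linear_combination (-b) * e0 + a * e1 + d * hab

theorem peak_exists {C : Set (ℝ × ℝ)} (hC : IsCompact C) {w : ℝ} (hw : 0 ≤ w)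
    (hsub : ∀ p ∈ C, 0 ≤ p.1 ∧ p.1 ≤ w) (hne : ∀ x ∈ Icc 0 w, ∃ y, (x, y) ∈ C) :
    ∃ x ∈ Icc 0 w, ∀ y ∈ Icc 0 w, top C y + top (refl C) y ≤ top C x + top (refl C) x := by
  have hcomp : IsCompact ((C ×ˢ C) ∩ {r : (ℝ × ℝ) × (ℝ × ℝ) | r.1.1 = r.2.1}) := by
    apply (hC.prod hC).inter_right
    exact isClosed_eq (by fun_prop) (by fun_prop)
  obtain ⟨y0, hy0⟩ := hne 0 ⟨le_refl _, hw⟩
  obtain ⟨⟨p, q⟩, ⟨⟨hp, hq⟩, hpq⟩, hmax⟩ := hcomp.exists_isMaxOn
    ⟨((0, y0), (0, y0)), ⟨⟨hy0, hy0⟩, rfl⟩⟩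
    (f := fun r : (ℝ × ℝ) × (ℝ × ℝ) => r.1.2 - r.2.2) (by fun_prop)
  simp only at hp hq hpq
  have hqr : (q.1, -q.2) ∈ refl C := by simpa [refl] using hq
  refine ⟨p.1, hsub p hp, ?_⟩
  intro y hy
  obtain ⟨t, ht⟩ := hne y hy
  have m1 := top_mem hC ht
  have m2 : (y, -(top (refl C) y)) ∈ C := by
    have := top_mem (refl_compact hC) (x := y) (y := -t) (by simpa [refl] using ht)
    simpa [refl] using this
  have h1 := hmax (a := ((y, top C y), (y, -(top (refl C) y)))) ⟨⟨m1, m2⟩, rfl⟩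
  simp only [mem_setOf_eq] at h1
  have h2 : p.2 ≤ top C p.1 := le_top hC hp
  have h3 : -q.2 ≤ top (refl C) p.1 := by
    rw [show p.1 = q.1 from hpq]
    exact le_top (refl_compact hC) hqr
  linarith

theorem trig_facts {φ : ℝ} (hφ : φ ∈ Icc 0 (Real.pi / 3)) :
    Real.cos φ ^ 2 + Real.sin φ ^ 2 = 1 ∧
    Real.cos (Real.pi / 3 - φ) ^ 2 + Real.sin (Real.pi / 3 - φ) ^ 2 = 1 ∧
    Real.cos φ * Real.cos (Real.pi / 3 - φ) - Real.sin φ * Real.sin (Real.pi / 3 - φ) = 1 / 2 ∧
    1 / 2 ≤ Real.cos φ ∧ 1 / 2 ≤ Real.cos (Real.pi / 3 - φ) := by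
  have hpi := Real.pi_pos
  refine ⟨Real.cos_sq_add_sin_sq φ, Real.cos_sq_add_sin_sq _, ?_, ?_, ?_⟩
  · rw [← Real.cos_add]
    rw [show φ + (Real.pi / 3 - φ) = Real.pi / 3 by ring, Real.cos_pi_div_three]
  · rw [← Real.cos_pi_div_three]
    apply Real.cos_le_cos_of_nonneg_of_le_pi hφ.1 (by linarith) hφ.2
  · rw [← Real.cos_pi_div_three]
    apply Real.cos_le_cos_of_nonneg_of_le_pi (by linarith [hφ.2]) (by linarith) (by linarith [hφ.1])

theorem quad_dist {c1 s1 c2 s2 : ℝ} (f1 : c1 ^ 2 + s1 ^ 2 = 1) (f2 : c2 ^ 2 + s2 ^ 2 = 1)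
    (f3 : c1 * c2 - s1 * s2 = 1 / 2) (f4 : 1 / 2 ≤ c1) (f5 : 1 / 2 ≤ c2) :
    ∀ p ∈ ({((0 : ℝ), (0 : ℝ)), (1, 0), (c1, s1), (c2, -s2)} : Set (ℝ × ℝ)),
    ∀ q ∈ ({((0 : ℝ), (0 : ℝ)), (1, 0), (c1, s1), (c2, -s2)} : Set (ℝ × ℝ)),
    (p.1 - q.1) ^ 2 + (p.2 - q.2) ^ 2 ≤ 1 := by
  intro p hp q hq
  simp only [mem_insert_iff, mem_singleton_iff] at hp hq
  rcases hp with rfl | rfl | rfl | rfl <;> rcases hq with rfl | rfl | rfl | rfl <;>
    simp only <;> nlinarith

theorem quad_dist' {c1 s1 c2 s2 : ℝ} (f1 : c1 ^ 2 + s1 ^ 2 = 1) (f2 : c2 ^ 2 + s2 ^ 2 = 1)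
    (f3 : c1 * c2 - s1 * s2 = 1 / 2) (f4 : 1 / 2 ≤ c1) (f5 : 1 / 2 ≤ c2) :
    ∀ p ∈ ({((0 : ℝ), (0 : ℝ)), (-1, 0), (-c1, s1), (-c2, -s2)} : Set (ℝ × ℝ)),
    ∀ q ∈ ({((0 : ℝ), (0 : ℝ)), (-1, 0), (-c1, s1), (-c2, -s2)} : Set (ℝ × ℝ)),
    (p.1 - q.1) ^ 2 + (p.2 - q.2) ^ 2 ≤ 1 := by
  intro p hp q hq
  simp only [mem_insert_iff, mem_singleton_iff] at hp hq
  rcases hp with rfl | rfl | rfl | rfl <;> rcases hq with rfl | rfl | rfl | rfl <;>
    simp only <;> nlinarith

/-- **Geometry reduction.** -/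
theorem frame_of_cover (K : Set (EuclideanSpace ℝ (Fin 2))) (hK : Convex ℝ K)
    (hc : ∀ S : Set (EuclideanSpace ℝ (Fin 2)), EMetric.diam S = 1 →
      ∃ v : EuclideanSpace ℝ (Fin 2), (fun x => x + v) '' S ⊆ K) (hv : volume K ≠ ⊤) :
    ∃ (ε : ℝ) (T U : ℝ → ℝ), Frame ε T U ∧
      ENNReal.ofReal (∫ x in (0:ℝ)..(1 + ε), (T x + U x)) ≤ volume K := by
  obtain ⟨v, hvK⟩ := contains_ball hc
  have hbdd := bounded_of_finite hK hv hvK
  set K1 := closure K with hK1
  have hK1c : IsCompact K1 := hbdd.isCompact_closure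
  have hK1x : Convex ℝ K1 := hK.closure
  have hc1 : ∀ S : Set E2, EMetric.diam S = 1 → ∃ v, (fun x => x + v) '' S ⊆ K1 := by
    intro S hS
    obtain ⟨v, hv⟩ := hc S hS
    exact ⟨v, hv.trans subset_closure⟩
  have hD : IsCompact (K1 - K1) := by
    rw [sub_eq_add_neg]
    exact hK1c.add hK1c.neg
  have hDx : Convex ℝ (K1 - K1) := hK1x.sub hK1x
  have hDb : closedBall (0 : E2) 1 ⊆ K1 - K1 := by
    intro x hx
    rw [mem_closedBall, dist_zero_right] at hx
    refine ⟨v + (1 / 2 : ℝ) • x, ?_, v - (1 / 2 : ℝ) • x, ?_, ?_⟩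
    · apply subset_closure
      apply hvK
      rw [mem_closedBall, dist_eq_norm, add_sub_cancel_left, norm_smul]
      norm_num
      linarith
    · apply subset_closure
      apply hvK
      rw [mem_closedBall, dist_eq_norm, sub_sub_cancel_left, norm_neg, norm_smul]
      norm_num
      linarith
    · show v + (1 / 2 : ℝ) • x - (v - (1 / 2 : ℝ) • x) = x
      module
  obtain ⟨z, hzD, hz1, hzb, hzs⟩ := exists_touch hD hDx hDb
  obtain ⟨P, hP, Q, hQ, hPQ⟩ := hzD
  set w := ‖z‖ with hw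
  have hwpos : 0 < w := by linarith
  have hz2 : (z 0) ^ 2 + (z 1) ^ 2 = w ^ 2 := by
    rw [hw, EuclideanSpace.norm_eq, Real.sq_sqrt (by positivity), Fin.sum_univ_two]
    simp [sq_abs]
  have hab : (z 0 / w) ^ 2 + (z 1 / w) ^ 2 = 1 := by
    field_simp
    linarith
  set a := z 0 / w with ha
  set b := z 1 / w with hb
  have hza : z 0 = w * a := by rw [ha]; field_simp
  have hzb' : z 1 = w * b := by rw [hb]; field_simp
  set C := Psi Q a b ⁻¹' K1 with hCdef
  have hC : IsCompact C := by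
    rw [hCdef, preimage_eq_image hab]
    exact hK1c.image (continuous_Phi Q a b)
  have hCx : Convex ℝ C := convex_preimage Q a b hK1x
  have h0C : ((0 : ℝ), (0 : ℝ)) ∈ C := by
    have : Psi Q a b (0, 0) = Q := by
      apply ext2
      · rw [Psi_zero]; simp
      · rw [Psi_one]; simp
    rw [hCdef, mem_preimage, this]
    exact hQ
  have hwC : (w, (0 : ℝ)) ∈ C := by
    have : Psi Q a b (w, 0) = P := by
      have e0 : P 0 - Q 0 = z 0 := by
        have := congrArg (fun v : E2 => v 0) hPQ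
        simpa using this
      have e1 : P 1 - Q 1 = z 1 := by
        have := congrArg (fun v : E2 => v 1) hPQ
        simpa using this
      apply ext2
      · rw [Psi_zero]; simp; linarith
      · rw [Psi_one]; simp; linarith
    rw [hCdef, mem_preimage, this]
    exact hP
  have hsub : ∀ p ∈ C, 0 ≤ p.1 ∧ p.1 ≤ w := by
    intro p hp
    have hX : Psi Q a b p ∈ K1 := hp
    have inner_eq : ∀ Y : E2, ⟪Y, z⟫ = w * (a * Y 0 + b * Y 1) := by
      intro Y
      rw [PiLp.inner_apply, Fin.sum_univ_two]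
      simp only [RCLike.inner_apply, conj_trivial]
      rw [hza, hzb']; ring
    have h1 := hzs _ (sub_mem_sub hX hQ)
    have h2 := hzs _ (sub_mem_sub hP hX)
    rw [inner_eq] at h1 h2
    have e0 : P 0 - Q 0 = z 0 := by
      have := congrArg (fun v : E2 => v 0) hPQ
      simpa using this
    have e1 : P 1 - Q 1 = z 1 := by
      have := congrArg (fun v : E2 => v 1) hPQ
      simpa using this
    simp only [PiLp.sub_apply, Psi_zero, Psi_one] at h1 h2
    have h3 : w * p.1 ≤ w ^ 2 := by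
      have : w * p.1 = w * (a * (Q 0 + (p.1 * a - p.2 * b) - Q 0) +
          b * (Q 1 + (p.1 * b + p.2 * a) - Q 1)) := by
        linear_combination (-w * p.1) * hab
      rw [this]; exact h1
    have h4 : w * (w - p.1) ≤ w ^ 2 := by
      have : w * (w - p.1) = w * (a * (P 0 - (Q 0 + (p.1 * a - p.2 * b))) +
          b * (P 1 - (Q 1 + (p.1 * b + p.2 * a)))) := by
        have e0' : P 0 = Q 0 + w * a := by linarith
        have e1' : P 1 = Q 1 + w * b := by linarith
        rw [e0', e1']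
        linear_combination (-w * (w - p.1)) * hab
      rw [this]; exact h2
    constructor
    · nlinarith
    · nlinarith
  have hne : ∀ x ∈ Icc 0 w, ∃ y, (x, y) ∈ C := by
    intro x hx
    refine ⟨0, ?_⟩
    have h1 : 0 ≤ x / w := div_nonneg hx.1 hwpos.le
    have h2 : x / w ≤ 1 := (div_le_one hwpos).2 hx.2
    have := hCx h0C hwC (sub_nonneg.2 h2) h1 (by ring)
    convert this using 1
    ext
    · simp; field_simp
    · simp
  have hCr := refl_compact hC
  have hCxr := refl_convex hCx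
  have hner : ∀ x ∈ Icc 0 w, ∃ y, (x, y) ∈ refl C := by
    intro x hx
    obtain ⟨y, hy⟩ := hne x hx
    exact ⟨-y, by simpa [refl] using hy⟩
  have mr : ∀ {x y : ℝ}, (x, y) ∈ C → -y ≤ top (refl C) x := by
    intro x y h
    exact le_top hCr (by simpa [refl] using h)
  have hzero : ∀ x ∈ Icc 0 w, (x, (0 : ℝ)) ∈ C := by
    intro x hx
    have h1 : 0 ≤ x / w := div_nonneg hx.1 hwpos.le
    have h2 : x / w ≤ 1 := (div_le_one hwpos).2 hx.2
    have := hCx h0C hwC (sub_nonneg.2 h2) h1 (by ring)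
    convert this using 1
    ext
    · simp; field_simp
    · simp
  have hweq : (1 : ℝ) + (w - 1) = w := by ring
  have s3 : Real.sqrt 3 ^ 2 = 3 := Real.sq_sqrt (by norm_num)
  refine ⟨w - 1, top C, top (refl C), ?_, ?_⟩
  · refine
      { eps_nonneg := by linarith
        concT := by rw [hweq]; exact concave_top hC hCx hne
        concU := by rw [hweq]; exact concave_top hCr hCxr hner
        T0 := le_top hC h0C
        Tw := by rw [hweq]; exact le_top hC hwC
        U0 := by simpa using mr h0C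
        Uw := by rw [hweq]; simpa using mr hwC
        intT := by rw [hweq]; exact top_intervalIntegrable hC hCx hwpos.le hne
        intU := by rw [hweq]; exact top_intervalIntegrable hCr hCxr hwpos.le hner
        peak := by rw [hweq]; exact peak_exists hC hwpos.le hsub hne
        vert := ?_
        right := ?_
        left := ?_
        chord60 := ?_
        chord120 := ?_ }
    · rw [hweq]
      obtain ⟨p, hp, q, hq, h1, h2⟩ := chord_exists hab Q hwpos.le hzb (c := 0) (d := w) (by simp)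
      refine ⟨p.1, hsub p hp, ?_⟩
      have h3 : p.2 ≤ top C p.1 := le_top hC hp
      have h4 : -q.2 ≤ top (refl C) q.1 := mr hq
      have h5 : p.1 = q.1 := by linarith
      rw [← h5] at h4
      linarith
    · intro φ hφ
      obtain ⟨f1, f2, f3, f4, f5⟩ := trig_facts hφ
      obtain ⟨t, ht⟩ := test_set hab Q hc1
        {((0 : ℝ), (0 : ℝ)), (1, 0), (Real.cos φ, Real.sin φ),
          (Real.cos (Real.pi / 3 - φ), -Real.sin (Real.pi / 3 - φ))}
        (quad_dist f1 f2 f3 f4 f5) (p := (0, 0)) (q := (1, 0)) (by simp) (by simp) (by norm_num)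
      have m1 := ht (0, 0) (by simp)
      have m2 := ht (1, 0) (by simp)
      have m3 := ht (Real.cos φ, Real.sin φ) (by simp)
      have m4 := ht (Real.cos (Real.pi / 3 - φ), -Real.sin (Real.pi / 3 - φ)) (by simp)
      rw [← hCdef] at m1 m2 m3 m4
      have e1 : ((0 : ℝ), (0 : ℝ)) + t = (t.1, t.2) := by ext <;> simp
      have e2 : ((1 : ℝ), (0 : ℝ)) + t = (t.1 + 1, t.2) := by
        ext
        · simp; ring
        · simp
      have e3 : (Real.cos φ, Real.sin φ) + t = (t.1 + Real.cos φ, t.2 + Real.sin φ) := by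
        ext <;> simp <;> ring
      have e4 : (Real.cos (Real.pi / 3 - φ), -Real.sin (Real.pi / 3 - φ)) + t =
          (t.1 + Real.cos (Real.pi / 3 - φ), t.2 - Real.sin (Real.pi / 3 - φ)) := by
        ext <;> simp <;> ring
      rw [e1] at m1
      rw [e2] at m2
      rw [e3] at m3
      rw [e4] at m4
      have g1 := hsub _ m1
      have g2 := hsub _ m2
      simp only at g1 g2
      refine ⟨t.1, ⟨g1.1, by linarith⟩, t.2, le_top hC m1, mr m1, le_top hC m2, mr m2,
        le_top hC m3, ?_⟩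
      have := mr m4
      linarith
    · intro φ hφ
      obtain ⟨f1, f2, f3, f4, f5⟩ := trig_facts hφ
      obtain ⟨t, ht⟩ := test_set hab Q hc1
        {((0 : ℝ), (0 : ℝ)), (-1, 0), (-Real.cos φ, Real.sin φ),
          (-Real.cos (Real.pi / 3 - φ), -Real.sin (Real.pi / 3 - φ))}
        (quad_dist' f1 f2 f3 f4 f5) (p := (0, 0)) (q := (-1, 0)) (by simp) (by simp) (by norm_num)
      have m1 := ht (0, 0) (by simp)
      have m2 := ht (-1, 0) (by simp)
      have m3 := ht (-Real.cos φ, Real.sin φ) (by simp)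
      have m4 := ht (-Real.cos (Real.pi / 3 - φ), -Real.sin (Real.pi / 3 - φ)) (by simp)
      rw [← hCdef] at m1 m2 m3 m4
      have e1 : ((0 : ℝ), (0 : ℝ)) + t = (w - (w - t.1), t.2) := by ext <;> simp
      have e2 : ((-1 : ℝ), (0 : ℝ)) + t = (w - ((w - t.1) + 1), t.2) := by
        ext
        · simp; ring
        · simp
      have e3 : (-Real.cos φ, Real.sin φ) + t =
          (w - ((w - t.1) + Real.cos φ), t.2 + Real.sin φ) := by
        ext <;> simp <;> ring
      have e4 : (-Real.cos (Real.pi / 3 - φ), -Real.sin (Real.pi / 3 - φ)) + t =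
          (w - ((w - t.1) + Real.cos (Real.pi / 3 - φ)), t.2 - Real.sin (Real.pi / 3 - φ)) := by
        ext <;> simp <;> ring
      rw [e1] at m1
      rw [e2] at m2
      rw [e3] at m3
      rw [e4] at m4
      have g1 := hsub _ m1
      have g2 := hsub _ m2
      simp only at g1 g2
      rw [hweq]
      refine ⟨w - t.1, ⟨by linarith, by linarith⟩, t.2, le_top hC m1, mr m1, le_top hC m2, mr m2,
        le_top hC m3, ?_⟩
      have := mr m4
      linarith
    · rw [hweq]
      obtain ⟨p, hp, q, hq, h1, h2⟩ := chord_exists hab Q hwpos.le hzb (c := w / 2)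
        (d := Real.sqrt 3 / 2 * w) (by nlinarith)
      have hq1 := hsub q hq
      have hp1 := hsub p hp
      refine ⟨q.1, ⟨hq1.1, by linarith⟩, ?_⟩
      have h3 : p.2 ≤ top C p.1 := le_top hC hp
      have h4 : -q.2 ≤ top (refl C) q.1 := mr hq
      have h5 : p.1 = q.1 + w / 2 := by linarith
      rw [h5] at h3
      linarith
    · rw [hweq]
      obtain ⟨p, hp, q, hq, h1, h2⟩ := chord_exists hab Q hwpos.le hzb (c := -(w / 2))
        (d := Real.sqrt 3 / 2 * w) (by nlinarith)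
      have hq1 := hsub q hq
      have hp1 := hsub p hp
      refine ⟨p.1, ⟨hp1.1, by linarith⟩, ?_⟩
      have h3 : p.2 ≤ top C p.1 := le_top hC hp
      have h4 : -q.2 ≤ top (refl C) q.1 := mr hq
      have h5 : q.1 = p.1 + w / 2 := by linarith
      rw [h5] at h4
      linarith
  · rw [hweq]
    calc ENNReal.ofReal (∫ x in (0:ℝ)..w, (top C x + top (refl C) x)) ≤ volume C :=
          integral_le_volume hC hCx hwpos.le hne
      _ = volume K1 := (measurePreserving_Psi hab Q).measure_preimage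
            hK1c.measurableSet.nullMeasurableSet
      _ ≤ volume K := volume_closure_of_convex hK

end Pool.Agent.Helper16TC
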